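import Mathlib
import Pool.Agent.N984.DI.Stm

set_option autoImplicit false

namespace Pool.Agent.N574.DI

open Matrix Finset Pool.Agent.N984.DI
open scoped ComplexOrder

section
variable {ι : Type} [Fintype ι] [DecidableEq ι]

theorem dg_mul {U : Matrix ι ι ℂ} (hU : U ∈ Matrix.unitaryGroup ι ℂ) (x y : ι → ℝ) :
    dg U x * dg U y = dg U (fun i => x i * y i) := by
  have h : Uᴴ * U = 1 := by
    have := Matrix.mem_unitaryGroup_iff'.mp hU
    rwa [Matrix.star_eq_conjTranspose] at this
  unfold dg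
  calc U * diagonal (fun i => (x i : ℂ)) * Uᴴ * (U * diagonal (fun i => (y i : ℂ)) * Uᴴ)
      = U * diagonal (fun i => (x i : ℂ)) * (Uᴴ * U) * diagonal (fun i => (y i : ℂ)) * Uᴴ := by
        simp only [Matrix.mul_assoc]
    _ = U * (diagonal (fun i => (x i : ℂ)) * diagonal (fun i => (y i : ℂ))) * Uᴴ := by
        rw [h]; simp only [Matrix.mul_one, Matrix.mul_assoc]
    _ = _ := by
        rw [Matrix.diagonal_mul_diagonal]
        congr 3
        funext i
        push_cast
        rfl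

theorem dg_one {U : Matrix ι ι ℂ} (hU : U ∈ Matrix.unitaryGroup ι ℂ) :
    dg U (fun _ => 1) = 1 := by
  have h : U * Uᴴ = 1 := by
    have := Matrix.mem_unitaryGroup_iff.mp hU
    rwa [Matrix.star_eq_conjTranspose] at this
  unfold dg
  have h1 : (diagonal (fun _ : ι => ((1 : ℝ) : ℂ)) : Matrix ι ι ℂ) = 1 := by
    simp
  rw [h1, Matrix.mul_one, h]

theorem dg_add (U : Matrix ι ι ℂ) (x y : ι → ℝ) :
    dg U x + dg U y = dg U (fun i => x i + y i) := by
  unfold dg
  rw [← Matrix.add_mul, ← Matrix.mul_add, Matrix.diagonal_add]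
  congr 3
  funext i
  push_cast
  rfl

theorem dg_smul (U : Matrix ι ι ℂ) (c : ℝ) (x : ι → ℝ) :
    c • dg U x = dg U (fun i => c * x i) := by
  unfold dg
  rw [← Matrix.smul_mul, ← Matrix.mul_smul, ← Matrix.diagonal_smul]
  congr 3
  funext i
  simp [Pi.smul_apply]

theorem dg_pow {U : Matrix ι ι ℂ} (hU : U ∈ Matrix.unitaryGroup ι ℂ) (x : ι → ℝ) (n : ℕ) :
    dg U x ^ n = dg U (fun i => x i ^ n) := by
  induction n with
  | zero => simp only [pow_zero]; exact (dg_one hU).symm
  | succ n ih => rw [pow_succ, ih, dg_mul hU]; simp only [pow_succ]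

theorem dg_sa (U : Matrix ι ι ℂ) (x : ι → ℝ) : IsSelfAdjoint (dg U x) := by
  show star (dg U x) = dg U x
  rw [Matrix.star_eq_conjTranspose]
  unfold dg
  rw [Matrix.conjTranspose_mul, Matrix.conjTranspose_mul, Matrix.conjTranspose_conjTranspose,
    Matrix.diagonal_conjTranspose, ← Matrix.mul_assoc]
  congr 3
  funext i
  simp

theorem dg_aeval {U : Matrix ι ι ℂ} (hU : U ∈ Matrix.unitaryGroup ι ℂ) (x : ι → ℝ)
    (q : Polynomial ℝ) : Polynomial.aeval (dg U x) q = dg U (fun i => q.eval (x i)) := by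
  induction q using Polynomial.induction_on' with
  | add p q hp hq =>
    rw [map_add, hp, hq, dg_add]
    simp only [Polynomial.eval_add]
  | monomial n c =>
    rw [Polynomial.aeval_monomial, dg_pow hU, ← Algebra.smul_def, dg_smul]
    simp only [Polynomial.eval_monomial]

theorem dg_spec {U : Matrix ι ι ℂ} (hU : U ∈ Matrix.unitaryGroup ι ℂ) (x : ι → ℝ) :
    spectrum ℝ (dg U x) ⊆ Set.range x := by
  intro t ht
  by_contra hn
  apply ht
  have hne : ∀ i, t - x i ≠ 0 := fun i h => hn ⟨i, (sub_eq_zero.mp h).symm⟩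
  have h1 : algebraMap ℝ (Matrix ι ι ℂ) t - dg U x = dg U (fun i => t - x i) := by
    rw [Algebra.algebraMap_eq_smul_one, ← dg_one hU, dg_smul, sub_eq_iff_eq_add, dg_add]
    congr 1
    funext i
    ring
  show IsUnit (algebraMap ℝ (Matrix ι ι ℂ) t - dg U x)
  rw [h1]
  refine IsUnit.of_mul_eq_one (dg U (fun i => (t - x i)⁻¹)) ?_
  rw [dg_mul hU]
  have : (fun i => (t - x i) * (t - x i)⁻¹) = fun _ => (1 : ℝ) := by
    funext i; exact mul_inv_cancel₀ (hne i)
  rw [this, dg_one hU]

end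

theorem t_CFD : CFD := by
  intro ι _ _ U hU x f
  obtain ⟨g, hg⟩ : ∃ g : Polynomial ℝ, ∀ i, g.eval (x i) = f (x i) := by
    refine ⟨Lagrange.interpolate (univ.image x) id f, fun i => ?_⟩
    have := Lagrange.eval_interpolate_at_node (s := univ.image x) (v := (id : ℝ → ℝ)) f
      (fun a _ b _ h => h) (i := x i) (mem_image_of_mem x (mem_univ i))
    simpa using this
  have h1 : cfc f (dg U x) = cfc g.eval (dg U x) := by
    apply cfc_congr
    intro t ht
    obtain ⟨i, rfl⟩ := dg_spec hU x ht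
    exact (hg i).symm
  rw [h1, cfc_polynomial g (dg U x) (dg_sa U x), dg_aeval hU]
  simp only [hg]

end Pool.Agent.N574.DI
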